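import Pool.Agent.Helper1.BSX.Stmts

/-!
# Module LD: linear disjointness of algebraically closed fields
-/

set_option autoImplicit false

namespace Pool.Agent.Helper1.BSX

open IntermediateField IntermediateField.algebraAdjoinAdjoin

theorem ld_mem (A U : Type) [Field A] [Field U] [Algebra A U] [IsAlgClosed A] (y : U)
    (hy : IsAlgebraic A y) : ∃ a : A, algebraMap A U a = y := by
  have h1 := IsAlgClosed.degree_eq_one_of_irreducible A (minpoly.irreducible hy.isIntegral)
  exact minpoly.mem_range_of_degree_eq_one A y h1

theorem ld_exch (F E : Type) [Field F] [Field E] [Algebra F E] (x a : E)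
    (hx : Algebra.IsAlgebraic (IntermediateField.adjoin F {x}) E) (ha : Transcendental F a) :
    Algebra.IsAlgebraic (IntermediateField.adjoin F {a}) E := by
  have h1 : Algebra.IsAlgebraic (Algebra.adjoin F {x}) E :=
    (IsFractionRing.comap_isAlgebraic_iff (A := Algebra.adjoin F {x})
      (K := IntermediateField.adjoin F {x}) (C := E)).mpr hx
  have h2 : Algebra.trdeg F E ≤ 1 := by
    have h := Algebra.IsAlgebraic.trdeg_le_cardinalMk F ({x} : Set E)
    simpa using h
  have h3 : AlgebraicIndependent F (fun _ : Unit => a) :=
    (algebraicIndependent_unique_type_iff).mpr ha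
  have h4 : IsTranscendenceBasis F (fun _ : Unit => a) :=
    h3.isTranscendenceBasis_of_trdeg_le_of_finite (by simpa using h2)
  have h5 := h4.isAlgebraic_field
  rw [Set.range_const] at h5
  exact h5

theorem ld_root (C A R U : Type) [Field C] [Field A] [Field R] [Field U] [Algebra C A]
    [Algebra R U] (K : IntermediateField C A) (hK : Algebra.IsAlgebraic K A) (g : A →+* U)
    (h : ∀ k ∈ K, ∃ r : R, algebraMap R U r = g k) (a : A) : IsAlgebraic R (g a) := by
  obtain ⟨p, hp0, hp⟩ := hK.isAlgebraic a
  have h1 : p.map (g.comp (algebraMap K A)) ∈ Polynomial.lifts (algebraMap R U) := by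
    rw [Polynomial.lifts_iff_coeff_lifts]
    intro n
    rw [Polynomial.coeff_map]
    obtain ⟨r, hr⟩ := h (algebraMap K A (p.coeff n)) (p.coeff n).2
    exact ⟨r, hr⟩
  obtain ⟨r, hr⟩ := (Polynomial.mem_lifts _).1 h1
  refine ⟨r, ?_, ?_⟩
  · intro h0
    rw [h0, Polynomial.map_zero] at hr
    exact hp0 ((Polynomial.map_eq_zero _).1 hr.symm)
  · rw [Polynomial.aeval_def, ← Polynomial.eval_map, hr, Polynomial.eval_map,
      ← Polynomial.hom_eval₂, ← Polynomial.aeval_def, hp, map_zero]

theorem ld_lift (B S M : Type) [Field B] [Field S] [Field M] [Algebra B S] [Algebra B M]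
    [IsAlgClosed M] (a : S) (c : M) (ha : Transcendental B a) (hc : Transcendental B c)
    (halg : Algebra.IsAlgebraic (IntermediateField.adjoin B {a}) S) :
    ∃ τ : S →ₐ[B] M, τ a = c := by
  let ψ : IntermediateField.adjoin B {a} →ₐ[B] M :=
    (IntermediateField.val _).comp
      (((RatFunc.algEquivOfTranscendental a ha).symm.trans
        (RatFunc.algEquivOfTranscendental c hc)).toAlgHom)
  obtain ⟨τ, hτ⟩ := IsAlgClosed.surjective_domRestrict_of_isAlgebraic
    (K := B) (L := IntermediateField.adjoin B {a}) (E := S) (M := M) ψ
  refine ⟨τ, ?_⟩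
  have h1 : τ a = (τ.domRestrict (IntermediateField.adjoin B {a}))
      (IntermediateField.AdjoinSimple.gen B a) := rfl
  have h2 : (τ.domRestrict (IntermediateField.adjoin B {a})) = ψ := hτ
  rw [h1, h2]
  simp [ψ]

theorem ld_aut (C A B U : Type) [Field C] [Field A] [Field B] [Field U] [Algebra C A] [Algebra C B]
    [Algebra A U] [Algebra B U] [Algebra C U] [IsScalarTower C A U] [IsScalarTower C B U]
    [IsAlgClosed C] [IsAlgClosed A] [IsAlgClosed B] [IsAlgClosed U] (x : A)
    (hx : FreeX C A B U x) (a : A) (ha : ∀ c : C, algebraMap C A c ≠ a) :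
    ∃ τ : U →ₐ[B] U, τ (algebraMap A U a) = algebraMap A U a + 1 ∧
      ∀ a₁ : A, ∃ a₂ : A, algebraMap A U a₂ = τ (algebraMap A U a₁) := by
  obtain ⟨hx1, hx2, hx3⟩ := hx
  have hat : Transcendental C a := by
    intro h
    obtain ⟨c, hc⟩ := ld_mem C A a h
    exact ha c hc
  have hA := ld_exch C A x a hx1 hat
  have haB : Transcendental B (algebraMap A U a) := by
    intro h
    obtain ⟨b, hb⟩ := ld_mem B U _ h
    refine hx2 (ld_root C A B U (IntermediateField.adjoin C {a}) hA (algebraMap A U) ?_ x)
    let K : IntermediateField C A :=
      { (((algebraMap B U).fieldRange).comap (algebraMap A U)) with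
        algebraMap_mem' := by
          intro c
          refine ⟨algebraMap C B c, ?_⟩
          rw [← IsScalarTower.algebraMap_apply, ← IsScalarTower.algebraMap_apply] }
    have hle : IntermediateField.adjoin C {a} ≤ K := by
      rw [IntermediateField.adjoin_le_iff]
      intro y hy
      rw [Set.mem_singleton_iff] at hy
      rw [hy]
      exact ⟨b, hb⟩
    intro k hk
    obtain ⟨r, hr⟩ := hle hk
    exact ⟨r, hr⟩
  have haB1 : Transcendental B (algebraMap A U a + 1) := by
    intro h
    apply haB
    have h1 := h.sub (isAlgebraic_one (R := B) (A := U))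
    rwa [add_sub_cancel_right] at h1
  have hU := ld_exch B U (algebraMap A U x) (algebraMap A U a) hx3 haB
  obtain ⟨τ, hτ⟩ := ld_lift B U U _ _ haB haB1 hU
  refine ⟨τ, hτ, ?_⟩
  intro a₁
  have h1 : IsAlgebraic A ((τ : U →+* U).comp (algebraMap A U) a₁) := by
    refine ld_root C A A U (IntermediateField.adjoin C {a}) hA
      ((τ : U →+* U).comp (algebraMap A U)) ?_ a₁
    let K : IntermediateField C A :=
      { (((algebraMap A U).fieldRange).comap ((τ : U →+* U).comp (algebraMap A U))) with
        algebraMap_mem' := by
          intro c
          refine ⟨algebraMap C A c, ?_⟩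
          change algebraMap A U (algebraMap C A c) = τ (algebraMap A U (algebraMap C A c))
          rw [← IsScalarTower.algebraMap_apply, IsScalarTower.algebraMap_apply C B U,
            AlgHom.commutes] }
    have hle : IntermediateField.adjoin C {a} ≤ K := by
      rw [IntermediateField.adjoin_le_iff]
      intro y hy
      rw [Set.mem_singleton_iff] at hy
      rw [hy]
      refine ⟨a + 1, ?_⟩
      change algebraMap A U (a + 1) = τ (algebraMap A U a)
      rw [hτ, map_add, map_one]
    intro k hk
    obtain ⟨r, hr⟩ := hle hk
    exact ⟨r, hr⟩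
  exact ld_mem A U _ h1

/-- the module statement -/
theorem st_LD : ST_LD := by
  intro C A B U _ _ _ _ _ _ _ _ _ _ _ _ _ _ _ _ x hx n a b hb hab
  classical
  have key : ∀ (m : ℕ) (a : Fin n → A), (Finset.univ.filter (fun i => a i ≠ 0)).card = m →
      ∑ i, algebraMap A U (a i) * algebraMap B U (b i) = 0 → ∀ i, a i = 0 := by
    intro m
    induction m using Nat.strong_induction_on with
    | _ m ih =>
      intro a hm hab
      by_contra hne
      push Not at hne
      obtain ⟨i₀, hi₀⟩ := hne
      set a' : Fin n → A := fun i => a i / a i₀ with ha'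
      have hsupp : ∀ i, a' i ≠ 0 ↔ a i ≠ 0 := by
        intro i
        simp [ha', hi₀]
      have hcard' : (Finset.univ.filter (fun i => a' i ≠ 0)).card = m := by
        rw [← hm]
        congr 1
        ext i
        simp only [Finset.mem_filter, Finset.mem_univ, true_and]
        exact hsupp i
      have hrel' : ∑ i, algebraMap A U (a' i) * algebraMap B U (b i) = 0 := by
        have h : ∑ i, algebraMap A U (a' i) * algebraMap B U (b i)
            = (algebraMap A U (a i₀))⁻¹ * ∑ i, algebraMap A U (a i) * algebraMap B U (b i) := by
          rw [Finset.mul_sum]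
          refine Finset.sum_congr rfl fun i _ => ?_
          rw [ha']
          simp only [map_div₀]
          ring
        rw [h, hab, mul_zero]
      have h1 : a' i₀ = 1 := div_self hi₀
      by_cases hC : ∀ j, ∃ c : C, algebraMap C A c = a' j
      · choose c hc using hC
        have h2 : ∑ i, c i • b i = 0 := by
          apply (algebraMap B U).injective
          rw [map_zero, map_sum, ← hrel']
          refine Finset.sum_congr rfl fun i _ => ?_
          rw [Algebra.smul_def, map_mul, ← hc i, ← IsScalarTower.algebraMap_apply,
            ← IsScalarTower.algebraMap_apply]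
        have h3 := Fintype.linearIndependent_iff.1 hb c h2 i₀
        have h4 := hc i₀
        rw [h3, map_zero, h1] at h4
        exact zero_ne_one h4
      · push Not at hC
        obtain ⟨j₀, hj₀⟩ := hC
        obtain ⟨τ, hτ1, hτ2⟩ := ld_aut C A B U x hx (a' j₀) hj₀
        choose t ht using hτ2
        have hd := ih (Finset.univ.filter (fun i => t (a' i) - a' i ≠ 0)).card (by
          rw [← hcard']
          apply Finset.card_lt_card
          rw [Finset.ssubset_iff_of_subset]
          · refine ⟨i₀, ?_, ?_⟩
            · simp [h1]
            · simp only [Finset.mem_filter, Finset.mem_univ, true_and, not_not]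
              have h5 : t (a' i₀) = 1 := by
                apply (algebraMap A U).injective
                rw [ht, h1, map_one, map_one]
              rw [h5, h1, sub_self]
          · intro i hi
            simp only [Finset.mem_filter, Finset.mem_univ, true_and] at hi ⊢
            intro h0
            apply hi
            have h5 : t (a' i) = 0 := by
              apply (algebraMap A U).injective
              rw [ht, h0, map_zero, map_zero]
            rw [h5, h0, sub_self]) (fun i => t (a' i) - a' i) rfl (by
          have h5 : ∑ i, algebraMap A U (t (a' i)) * algebraMap B U (b i) = 0 := by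
            have h6 : ∑ i, algebraMap A U (t (a' i)) * algebraMap B U (b i)
                = τ (∑ i, algebraMap A U (a' i) * algebraMap B U (b i)) := by
              rw [map_sum]
              refine Finset.sum_congr rfl fun i _ => ?_
              rw [map_mul, ht, AlgHom.commutes]
            rw [h6, hrel', map_zero]
          calc ∑ i, algebraMap A U (t (a' i) - a' i) * algebraMap B U (b i)
              = ∑ i, algebraMap A U (t (a' i)) * algebraMap B U (b i)
                - ∑ i, algebraMap A U (a' i) * algebraMap B U (b i) := by
                rw [← Finset.sum_sub_distrib]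
                refine Finset.sum_congr rfl fun i _ => ?_
                rw [map_sub, sub_mul]
            _ = 0 := by rw [h5, hrel', sub_zero])
        have h7 := hd j₀
        have h8 : t (a' j₀) = a' j₀ + 1 := by
          apply (algebraMap A U).injective
          rw [ht, hτ1, map_add, map_one]
        rw [h8, add_sub_cancel_left] at h7
        exact one_ne_zero h7
  exact key _ a rfl hab

end Pool.Agent.Helper1.BSX
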